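import Pool.Agent.H.MP_89edc2_al.D

set_option autoImplicit false

namespace Pool.Agent.H.MP_e563b5_al

open Equiv Pool.Agent.H.MP_89edc2_al

lemma dc {α β : Type} {E : Set α} {B : Set β} (hE : E.Finite) (hB : B.Finite) (r : α → β → Prop)
    (k c : ℕ) (h : ∀ a ∈ E, ∃ d, 0 < d ∧ d ≤ {b ∈ B | r a b}.ncard ∧
      ∀ b ∈ B, r a b → k * {a' ∈ E | r a' b}.ncard ≤ c * d) : k * E.ncard ≤ c * B.ncard := by
  classical
  lift E to Finset α using hE
  lift B to Finset β using hB
  have e1 : ∀ a, {b ∈ (B : Set β) | r a b}.ncard = (B.filter (r a)).card := fun a => by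
    rw [← Set.ncard_coe_finset]; congr 1; ext; simp
  have e2 : ∀ b, {a ∈ (E : Set α) | r a b}.ncard = (E.filter (r · b)).card := fun a => by
    rw [← Set.ncard_coe_finset]; congr 1; ext; simp
  simp only [e1, e2] at h
  simp only [Set.ncard_coe_finset, Finset.mem_coe] at h ⊢
  have key : (k : ℚ) * E.card ≤ c * B.card := by
    calc (k : ℚ) * E.card = ∑ a ∈ E, (k : ℚ) := by simp [mul_comm]
      _ ≤ ∑ a ∈ E, ∑ b ∈ B.filter (r a), (c : ℚ) / (E.filter (r · b)).card := by
        refine Finset.sum_le_sum fun a ha => ?_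
        obtain ⟨d, d0, hd, hb⟩ := h a ha
        have d0' : (0 : ℚ) < d := by exact_mod_cast d0
        calc (k : ℚ) ≤ ∑ b ∈ B.filter (r a), (k : ℚ) / d := by
              rw [Finset.sum_const, nsmul_eq_mul, mul_div_assoc', le_div_iff₀ d0', mul_comm]
              have : (d : ℚ) ≤ (B.filter (r a)).card := by exact_mod_cast hd
              gcongr
          _ ≤ _ := by
              refine Finset.sum_le_sum fun b hb' => ?_
              rw [Finset.mem_filter] at hb'
              have p : (0 : ℚ) < (E.filter (r · b)).card := by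
                exact_mod_cast Finset.card_pos.2 ⟨a, Finset.mem_filter.2 ⟨ha, hb'.2⟩⟩
              rw [div_le_div_iff₀ d0' p]
              exact_mod_cast hb b hb'.1 hb'.2
      _ = ∑ b ∈ B, ∑ a ∈ E.filter (r · b), (c : ℚ) / (E.filter (r · b)).card := by
        simp only [Finset.sum_filter]
        exact Finset.sum_comm
      _ ≤ ∑ b ∈ B, (c : ℚ) := by
        refine Finset.sum_le_sum fun b _ => ?_
        rw [Finset.sum_const, nsmul_eq_mul]
        rcases Nat.eq_zero_or_pos (E.filter (r · b)).card with h0 | h0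
        · rw [h0]; simp
        · rw [mul_div_cancel₀]
          exact_mod_cast h0.ne'
      _ = _ := by simp [mul_comm]
  exact_mod_cast key

section ball
variable {G : Type} [Group G]

lemma ball_mono (S : Finset G) {n m : ℕ} (h : n ≤ m) : Ball S n ⊆ Ball S m :=
  fun _ ⟨l, h1, h2, h3⟩ => ⟨l, h1.trans h, h2, h3⟩

lemma ball_mul {S : Finset G} {n m : ℕ} {x y : G} (hx : x ∈ Ball S n) (hy : y ∈ Ball S m) :
    x * y ∈ Ball S (n + m) := by
  obtain ⟨l, h1, h2, rfl⟩ := hx
  obtain ⟨l', h1', h2', rfl⟩ := hy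
  refine ⟨l ++ l', by simp; omega, fun z hz => ?_, List.prod_append⟩
  rcases List.mem_append.1 hz with h | h
  exacts [h2 z h, h2' z h]

lemma ball_sub (S : Finset G) (n m : ℕ) :
    (Ball S (n + m)).ncard ≤ (Ball S n).ncard * (Ball S m).ncard := by
  have : Ball S (n + m) ⊆ (fun p : G × G => p.1 * p.2) '' (Ball S n ×ˢ Ball S m) := by
    rintro _ ⟨l, h1, h2, rfl⟩
    exact ⟨((l.take n).prod, (l.drop n).prod),
      ⟨⟨l.take n, by simp, fun x hx => h2 x (List.mem_of_mem_take hx), rfl⟩,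
        ⟨l.drop n, by simp; omega, fun x hx => h2 x (List.mem_of_mem_drop hx), rfl⟩⟩,
      List.prod_take_mul_prod_drop l n⟩
  have fin := (ball_fin S n).prod (ball_fin S m)
  rw [← Set.ncard_prod]
  exact (Set.ncard_le_ncard this (fin.image _)).trans (Set.ncard_image_le fin)

lemma ball_pos (S : Finset G) (n : ℕ) : 0 < (Ball S n).ncard :=
  (Set.ncard_pos (ball_fin S n)).2 ⟨1, [], by simp, by simp, rfl⟩

lemma ball_sub_group (S : Finset G) : ∃ S' : Finset (Subgroup.closure (S : Set G)),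
    Subgroup.closure (S' : Set (Subgroup.closure (S : Set G))) = ⊤ ∧
      ∀ n, (Ball S' n).ncard = (Ball S n).ncard := by
  classical
  refine ⟨S.preimage Subtype.val Subtype.val_injective.injOn, ?_, fun n => ?_⟩
  · rw [Finset.coe_preimage]
    exact Subgroup.closure_closure_coe_preimage
  · rw [← Set.ncard_image_of_injective _ Subtype.val_injective]
    congr 1
    ext g
    constructor
    · rintro ⟨_, ⟨l, h1, h2, rfl⟩, rfl⟩
      refine ⟨l.map (Subgroup.subtype _), by simpa using h1, fun y hy => ?_,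
        (map_list_prod (Subgroup.subtype _) l).symm⟩
      obtain ⟨x, hx, rfl⟩ := List.mem_map.1 hy
      simpa using h2 x hx
    · rintro ⟨l, h1, h2, rfl⟩
      have hm : ∀ x ∈ l, x ∈ Subgroup.closure (S : Set G) := fun x hx => by
        rcases h2 x hx with h | h
        · exact Subgroup.subset_closure h
        · exact inv_mem_iff.1 (Subgroup.subset_closure h)
      refine ⟨(l.pmap Subtype.mk hm).prod, ⟨_, by simpa using h1, fun y hy => ?_, rfl⟩, ?_⟩
      · obtain ⟨x, hx, rfl⟩ := List.mem_pmap.1 hy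
        simpa using h2 x hx
      · have := map_list_prod (Subgroup.subtype (Subgroup.closure (S : Set G))) (l.pmap Subtype.mk hm)
        rw [List.map_pmap] at this
        simpa using this

end ball

@[ext] structure Wt (Ω : Type) where
  f : Ω →₀ ℤ
  γ : Perm Ω

variable {Ω ι : Type}

noncomputable instance : Mul (Wt Ω) := ⟨fun a b => ⟨a.f + b.f.equivMapDomain a.γ, a.γ * b.γ⟩⟩
instance : One (Wt Ω) := ⟨⟨0, 1⟩⟩
noncomputable instance : Inv (Wt Ω) := ⟨fun a => ⟨-(a.f.equivMapDomain a.γ⁻¹), a.γ⁻¹⟩⟩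

@[simp] lemma mul_f (a b : Wt Ω) (x : Ω) : (a * b).f x = a.f x + b.f (a.γ⁻¹ x) := rfl
@[simp] lemma mul_γ (a b : Wt Ω) : (a * b).γ = a.γ * b.γ := rfl
@[simp] lemma one_f : (1 : Wt Ω).f = 0 := rfl
@[simp] lemma one_γ : (1 : Wt Ω).γ = 1 := rfl
@[simp] lemma inv_f (a : Wt Ω) (x : Ω) : (a⁻¹).f x = -a.f (a.γ x) := rfl
@[simp] lemma inv_γ (a : Wt Ω) : (a⁻¹).γ = a.γ⁻¹ := rfl

noncomputable instance : Group (Wt Ω) :=
  Group.ofLeftAxioms (fun a b c => by ext <;> simp [add_assoc, mul_assoc])
    (fun a => by ext <;> simp) (fun a => by ext <;> simp)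

def nrm (f : Ω →₀ ℤ) : ℕ := f.sum fun _ a => a.natAbs

lemma nrm_map (e : Perm Ω) (f : Ω →₀ ℤ) : nrm (f.equivMapDomain e) = nrm f :=
  Finsupp.sum_equivMapDomain _ _ _

lemma nrm_upd (f : Ω →₀ ℤ) (x : Ω) (v : ℤ) :
    nrm (f.update x v) + (f x).natAbs = nrm f + v.natAbs := by
  classical
  have h1 := Finsupp.add_sum_erase' f x (fun _ a => a.natAbs) (by simp)
  have h2 := Finsupp.add_sum_erase' (f.update x v) x (fun _ a => a.natAbs) (by simp)
  rw [Finsupp.erase_update_eq_erase, Finsupp.update_apply, if_pos rfl] at h2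
  unfold nrm
  omega

lemma le_nrm (f : Ω →₀ ℤ) (x : Ω) : (f x).natAbs ≤ nrm f := by
  have := Finsupp.add_sum_erase' f x (fun _ a => a.natAbs) (by simp)
  unfold nrm
  omega

noncomputable def upd (g : Wt Ω) (x : Ω) (v : ℤ) : Wt Ω := ⟨g.f.update x v, g.γ⟩

variable [DecidableEq Ω]

lemma upd_f (g : Wt Ω) (x : Ω) (v : ℤ) (y : Ω) : (upd g x v).f y = if y = x then v else g.f y :=
  Finsupp.update_apply ..

lemma upd_back {g g' : Wt Ω} {x : Ω} {v v' : ℤ} (h : upd g x v = upd g' x v') :
    g = upd g' x (g.f x) := by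
  ext y
  · have := congrArg (fun a : Wt Ω => a.f y) h
    simp only [upd_f] at this ⊢
    split_ifs at this ⊢ with e
    · rw [e]
    · exact this
  · have := congrArg (fun a : Wt Ω => a.γ y) h
    exact this

variable (σ : ι → Perm Ω) (x0 : Ω)

def pr (u : List ι) : Perm Ω := (u.map σ).prod

def Ob : List ι → Finset Ω
  | [] => {x0}
  | s :: u => insert x0 ((Ob u).image (σ s))

lemma x0_mem (u : List ι) : x0 ∈ Ob σ x0 u := by cases u <;> simp [Ob]

def Wit (u : List ι) (g : Wt Ω) (n : ℕ) : Prop :=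
  g.γ = pr σ u ∧ g.f.support ⊆ Ob σ x0 u ∧ u.length + nrm g.f ≤ n

def Bl (n : ℕ) : Set (Wt Ω) := {g | ∃ u, Wit σ x0 u g n}

variable {σ x0}

lemma Wit.upd {u : List ι} {g : Wt Ω} {n n' : ℕ} (h : Wit σ x0 u g n) {x : Ω}
    (hx : x ∈ Ob σ x0 u) {v : ℤ} (hv : v.natAbs + n ≤ (g.f x).natAbs + n') :
    Wit σ x0 u (upd g x v) n' := by
  refine ⟨h.1, (Finsupp.support_update_subset _ _).trans (Finset.insert_subset hx h.2.1), ?_⟩
  have := nrm_upd g.f x v
  have := h.2.2
  simp only [MP_e563b5_al.upd]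
  omega

noncomputable def tt (x0 : Ω) (c : ℤ) : Wt Ω := ⟨Finsupp.single x0 c, 1⟩
def sg (σ : ι → Perm Ω) (s : ι) : Wt Ω := ⟨0, σ s⟩

lemma tt_mul (c : ℤ) (g : Wt Ω) : tt x0 c * g = upd g x0 (g.f x0 + c) := by
  ext y
  · simp only [mul_f, tt, upd_f, Finsupp.single_apply, inv_one, Perm.one_apply]
    by_cases e : y = x0
    · simp [e, add_comm]
    · simp [e, Ne.symm e]
  · simp [tt, upd]

lemma tt_add (c d : ℤ) : tt x0 c * tt x0 d = tt x0 (c + d) := by
  ext y <;> simp [tt]

omit [DecidableEq Ω] in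
lemma tt_inv (c : ℤ) : (tt x0 c)⁻¹ = tt x0 (-c) := by
  ext y <;> simp [tt]

theorem ball_eq (hσ : ∀ s, (σ s)⁻¹ = σ s) {S : Finset (Wt Ω)}
    (hS : ∀ g, g ∈ S ↔ g = tt x0 1 ∨ ∃ s, g = sg σ s) (n : ℕ) : Ball S n = Bl σ x0 n := by
  have sgi : ∀ s, (sg σ s)⁻¹ = sg σ s := fun s => by ext y <;> simp [sg, hσ]
  have sgm : ∀ s (g : Wt Ω), sg σ s * g = ⟨g.f.equivMapDomain (σ s), σ s * g.γ⟩ := fun s g => by
    ext y
    · simp only [sg, mul_f, Finsupp.coe_zero, Pi.zero_apply, zero_add]; rfl
    · simp [sg]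
  ext g
  constructor
  · rintro ⟨l, h1, h2, rfl⟩
    suffices h : ∃ u, Wit σ x0 u l.prod l.length by
      obtain ⟨u, h⟩ := h
      exact ⟨u, h.1, h.2.1, h.2.2.trans h1⟩
    clear h1
    induction l with
    | nil => exact ⟨[], rfl, by simp, by simp [nrm]⟩
    | cons x l ih =>
      obtain ⟨u, h⟩ := ih fun y hy => h2 y (List.mem_cons_of_mem _ hy)
      have hx : x = tt x0 1 ∨ x = tt x0 (-1) ∨ ∃ s, x = sg σ s := by
        rcases h2 x List.mem_cons_self with h | h
        · rcases (hS _).1 h with h | h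
          exacts [Or.inl h, Or.inr (Or.inr h)]
        · rcases (hS _).1 h with h | ⟨s, h⟩
          · exact Or.inr (Or.inl (by rw [← tt_inv, ← h, inv_inv]))
          · exact Or.inr (Or.inr ⟨s, by rw [← sgi, ← h, inv_inv]⟩)
      rw [List.prod_cons, List.length_cons]
      rcases hx with rfl | rfl | ⟨s, rfl⟩
      · exact ⟨u, by rw [tt_mul]; exact h.upd (x0_mem σ x0 u) (by omega)⟩
      · exact ⟨u, by rw [tt_mul]; exact h.upd (x0_mem σ x0 u) (by omega)⟩
      · rw [sgm]
        refine ⟨s :: u, by simp [pr, h.1], fun y hy => ?_, ?_⟩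
        · rw [Finsupp.mem_support_iff, Finsupp.equivMapDomain_apply] at hy
          exact Finset.mem_insert_of_mem (Finset.mem_image.2
            ⟨_, h.2.1 (Finsupp.mem_support_iff.2 hy), by simp⟩)
        · have := h.2.2
          simp only [nrm_map, List.length_cons]
          omega
  · have tb : ∀ c : ℤ, tt x0 c ∈ Ball S c.natAbs := by
      have p : ∀ (e : ℤ), (tt x0 e ∈ S ∨ (tt x0 e)⁻¹ ∈ S) → ∀ m : ℕ, tt x0 (m * e) ∈ Ball S m := by
        intro e he m
        induction m with
        | zero => exact ⟨[], le_rfl, by simp, by ext <;> simp [tt]⟩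
        | succ m ih =>
          have := ball_mul ih (⟨[tt x0 e], le_rfl, by simpa using he, by simp⟩ : tt x0 e ∈ Ball S 1)
          rwa [tt_add, ← add_one_mul, ← Nat.cast_add_one] at this
      intro c
      rcases Int.natAbs_eq c with h | h
      · have := p 1 (Or.inl ((hS _).2 (Or.inl rfl))) c.natAbs
        rwa [mul_one, ← h] at this
      · have := p (-1) (Or.inr ((hS _).2 (Or.inl (by rw [tt_inv]; rfl)))) c.natAbs
        rwa [mul_neg_one, ← h] at this
    rintro ⟨u, h⟩
    induction u generalizing g n with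
    | nil =>
      have e : g = tt x0 (g.f x0) := by
        ext y
        · rw [tt, ← (Finsupp.support_subset_singleton.1 h.2.1)]
        · rw [h.1]; rfl
      have := le_nrm g.f x0
      have := h.2.2
      rw [e]
      exact ball_mono S (by omega) (tb _)
    | cons s u ih =>
      let g' : Wt Ω := ⟨(g.f.update x0 0).equivMapDomain (σ s)⁻¹, pr σ u⟩
      have h1 := nrm_upd g.f x0 0
      have h2 := h.2.2
      have h' : Wit σ x0 u g' (u.length + nrm (g.f.update x0 0)) := by
        refine ⟨rfl, fun y hy => ?_, by simp only [g', nrm_map]; rfl⟩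
        rw [Finsupp.mem_support_iff, Finsupp.equivMapDomain_apply, Finsupp.update_apply] at hy
        split_ifs at hy with e
        · exact absurd rfl hy
        · rcases Finset.mem_insert.1 (h.2.1 (Finsupp.mem_support_iff.2 hy)) with c | c
          · exact absurd c e
          · obtain ⟨z, hz, ez⟩ := Finset.mem_image.1 c
            rwa [← (σ s).injective ez]
      have e : g = tt x0 (g.f x0) * (sg σ s * g') := by
        rw [sgm, tt_mul]
        ext y
        · simp only [upd_f, Finsupp.equivMapDomain_apply, g', Finsupp.update_apply]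
          have : ∀ z, ((σ s)⁻¹ : Perm Ω).symm ((σ s).symm z) = z := fun z =>
            (σ s).apply_symm_apply z
          simp only [this]
          split_ifs with c <;> simp [c]
        · rw [h.1]; simp [upd, pr, g']
      have := ball_mul (tb (g.f x0)) (ball_mul
        (⟨[sg σ s], le_rfl, by simpa using Or.inl ((hS _).2 (Or.inr ⟨s, rfl⟩)), by simp⟩ :
          sg σ s ∈ Ball S 1) (ih _ _ h'))
      rw [← e] at this
      refine ball_mono S ?_ this
      simp only [List.length_cons, Int.natAbs_zero] at h1 h2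
      omega

end Pool.Agent.H.MP_e563b5_al
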