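import Pool.Agent.H.MP_e563b5_al.A

set_option autoImplicit false

namespace Pool.Agent.H.MP_e563b5_al

open Equiv Pool.Agent.H.MP_89edc2_al

variable {Ω ι : Type} [DecidableEq Ω] {σ : ι → Perm Ω} {x0 : Ω}

def Pk (k : ℕ) (g : Wt Ω) : Finset Ω := g.f.support.filter fun x => k < (g.f x).natAbs

omit [DecidableEq Ω] in
lemma mem_Pk {k : ℕ} {g : Wt Ω} {x : Ω} : x ∈ Pk k g ↔ k < (g.f x).natAbs := by
  simp only [Pk, Finset.mem_filter, Finsupp.mem_support_iff, and_iff_right_iff_imp]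
  intro h e
  simp [e] at h

lemma Pk_upd {k : ℕ} (g : Wt Ω) (x : Ω) {v : ℤ} (hv : k < v.natAbs) :
    Pk k (upd g x v) = insert x (Pk k g) := by
  ext y
  simp only [mem_Pk, upd_f, Finset.mem_insert]
  split_ifs with e <;> simp [e, hv]

lemma upd_inj {g : Wt Ω} {x y : Ω} {v w : ℤ} (hv : v ≠ g.f x) (h : upd g x v = upd g y w) :
    x = y ∧ v = w := by
  have := congrArg (fun a : Wt Ω => a.f x) h
  simp only [upd_f, if_true] at this
  split_ifs at this with e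
  · exact ⟨e, this⟩
  · exact absurd this hv

lemma caseC (hf : ∀ n, (Bl σ x0 n).Finite) (n k : ℕ) :
    k * {g ∈ Bl σ x0 (n + 1) | g ∉ Bl σ x0 n ∧ 0 < (Pk k g).card ∧
      g.f.support.card ≤ 3 * (Pk k g).card}.ncard ≤ 3 * (Bl σ x0 n).ncard := by
  rcases Nat.eq_zero_or_pos k with rfl | k0
  · simp
  refine dc ((hf _).subset (Set.sep_subset _ _)) (hf n) (fun g g' => ∃ x v, g' = upd g x v ∧
    k < (g.f x).natAbs ∧ v.natAbs < (g.f x).natAbs ∧ (g.f x).natAbs ≤ v.natAbs + k ∧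
      (0 < v ↔ 0 < g.f x)) k 3 ?_
  rintro g ⟨⟨u, hu⟩, -, p0, hp⟩
  refine ⟨k * (Pk k g).card, by positivity, ?_, ?_⟩
  · rw [show k * (Pk k g).card = (Pk k g ×ˢ Finset.range k).card by simp [mul_comm],
      ← Set.ncard_coe_finset]
    refine Set.ncard_le_ncard_of_injOn (fun p : Ω × ℕ => upd g p.1
      (if 0 < g.f p.1 then g.f p.1 - (p.2 + 1) else g.f p.1 + (p.2 + 1))) ?_ ?_
      ((hf n).subset (Set.sep_subset _ _))
    · rintro ⟨x, j⟩ h
      simp only [Finset.coe_product, Set.mem_prod, Finset.mem_coe, mem_Pk,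
        Finset.mem_range] at h
      have x0 : g.f x ≠ 0 := by omega
      refine ⟨⟨u, hu.upd (hu.2.1 (Finsupp.mem_support_iff.2 x0)) ?_⟩, x, _, rfl, h.1, ?_⟩
      · dsimp only
        split_ifs <;> omega
      · dsimp only
        split_ifs <;> omega
    · rintro ⟨x, j⟩ - ⟨y, i⟩ - h
      obtain ⟨rfl, e⟩ := upd_inj (by dsimp only; split_ifs <;> omega) h
      dsimp only at e
      congr 1
      split_ifs at e <;> omega
  · rintro g' - ⟨x, v, e', h1, h2, h3, h4⟩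
    rw [← mul_assoc, mul_comm 3 k, mul_assoc]
    refine Nat.mul_le_mul_left _ (le_trans ?_ hp)
    have sub : g'.f.support ⊆ g.f.support := by
      rw [e']
      exact (Finsupp.support_update_subset _ _).trans
        (Finset.insert_subset (Finsupp.mem_support_iff.2 (by omega)) subset_rfl)
    refine le_trans ?_ (Finset.card_le_card sub)
    rw [← Set.ncard_coe_finset]
    have ch : ∀ a : Wt Ω, ∃ x, (∃ x v, g' = upd a x v ∧
      k < (a.f x).natAbs ∧ v.natAbs < (a.f x).natAbs ∧ (a.f x).natAbs ≤ v.natAbs + k ∧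
        (0 < v ↔ 0 < a.f x)) → ∃ v, g' = upd a x v ∧
      k < (a.f x).natAbs ∧ v.natAbs < (a.f x).natAbs ∧ (a.f x).natAbs ≤ v.natAbs + k ∧
        (0 < v ↔ 0 < a.f x) := fun a => by
      by_cases c : ∃ x v, g' = upd a x v ∧
        k < (a.f x).natAbs ∧ v.natAbs < (a.f x).natAbs ∧ (a.f x).natAbs ≤ v.natAbs + k ∧
          (0 < v ↔ 0 < a.f x)
      · obtain ⟨x, hx⟩ := c
        exact ⟨x, fun _ => hx⟩
      · exact ⟨x, fun h => absurd h c⟩
    choose φ hφ using ch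
    refine Set.ncard_le_ncard_of_injOn φ ?_ ?_ (Finset.finite_toSet _)
    · rintro a ⟨-, ha⟩
      obtain ⟨w, e, b1, b2, b3, -⟩ := hφ a ha
      rw [Finset.mem_coe, Finsupp.mem_support_iff, e, upd_f, if_pos rfl]
      omega
    · have key : ∀ a b : Wt Ω, a ∉ Bl σ x0 n → b ∈ Bl σ x0 (n + 1) → ∀ (x : Ω) (v w : ℤ),
          upd a x v = upd b x w → b.f x ≠ 0 → (b.f x).natAbs ≤ (a.f x).natAbs := by
        rintro a b ha ⟨ub, hb⟩ x v w e h0
        by_contra c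
        refine ha ⟨ub, ?_⟩
        rw [upd_back e]
        exact hb.upd (hb.2.1 (Finsupp.mem_support_iff.2 h0)) (by omega)
      rintro a ⟨⟨a1, a2, -⟩, ha⟩ b ⟨⟨b1, b2, -⟩, hb⟩ e
      obtain ⟨w, ea, c1, c2, c3, c4⟩ := hφ a ha
      obtain ⟨w', eb, d1, d2, d3, d4⟩ := hφ b hb
      rw [← e] at eb d1 d2 d3 d4
      have e0 := ea.symm.trans eb
      have k1 := key a b a2 b1 _ _ _ e0 (by omega)
      have k2 := key b a b2 a1 _ _ _ e0.symm (by omega)
      have ew : w = w' := by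
        have := congrArg (fun a' : Wt Ω => a'.f (φ a)) e0
        simpa [upd_f] using this
      have : a.f (φ a) = b.f (φ a) := by omega
      rw [upd_back e0, this]
      ext y
      · rw [upd_f]; split_ifs with c <;> simp [c]
      · rfl

def DD (σ : ι → Perm Ω) (x0 : Ω) (k N j : ℕ) : Set (Wt Ω) :=
  {g | ∃ u, Wit σ x0 u g N ∧ (Pk k g).card + 2 * j ≤ (Ob σ x0 u \ Pk k g).card}

lemma DD_sub (k N j : ℕ) : DD σ x0 k N j ⊆ Bl σ x0 N := fun _ ⟨u, h, _⟩ => ⟨u, h⟩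

lemma stepB (hf : ∀ n, (Bl σ x0 n).Finite) (k N j : ℕ) :
    2 * (DD σ x0 k N (j + 1)).ncard ≤ (DD σ x0 k (N + (4 * k + 2)) j).ncard := by
  have := dc ((hf _).subset (DD_sub k N (j + 1))) ((hf _).subset (DD_sub k (N + (4 * k + 2)) j))
    (fun g g' => ∃ x, (g.f x).natAbs ≤ k ∧
      (g' = upd g x (g.f x + (2 * k + 1)) ∨ g' = upd g x (g.f x + (4 * k + 2)))) 2 1 ?_
  · simpa using this
  rintro g ⟨u, hu, hc⟩
  refine ⟨(Ob σ x0 u \ Pk k g).card * 2, by omega, ?_, ?_⟩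
  · rw [show (Ob σ x0 u \ Pk k g).card * 2 =
      ((Ob σ x0 u \ Pk k g) ×ˢ (Finset.univ : Finset Bool)).card by simp, ← Set.ncard_coe_finset]
    refine Set.ncard_le_ncard_of_injOn (fun p : Ω × Bool => upd g p.1
      (if p.2 then g.f p.1 + (2 * k + 1) else g.f p.1 + (4 * k + 2))) ?_ ?_
      (((hf _).subset (DD_sub _ _ _)).subset (Set.sep_subset _ _))
    · rintro ⟨x, b⟩ h
      simp only [Finset.coe_product, Set.mem_prod, Finset.mem_coe, mem_Pk, Finset.mem_sdiff] at h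
      refine ⟨⟨u, hu.upd h.1.1 ?_, ?_⟩, x, by omega, ?_⟩
      · dsimp only
        split_ifs <;> omega
      · dsimp only
        rw [Pk_upd _ _ (by split_ifs <;> omega), Finset.sdiff_insert,
          Finset.card_erase_of_mem (Finset.mem_sdiff.2 ⟨h.1.1, by rw [mem_Pk]; exact h.1.2⟩)]
        have := Finset.card_insert_le x (Pk k g)
        omega
      · cases b
        · exact Or.inr rfl
        · exact Or.inl rfl
    · rintro ⟨x, b⟩ - ⟨y, i⟩ - h
      obtain ⟨rfl, e⟩ := upd_inj (by dsimp only; split_ifs <;> omega) h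
      dsimp only at e
      congr 1
      cases b <;> cases i <;> simp at e ⊢ <;> omega
  · rintro g' - ⟨x, hx, e'⟩
    have : (Pk k g').card ≤ (Pk k g).card + 1 := by
      rcases e' with rfl | rfl <;> rw [Pk_upd _ _ (by omega)] <;> exact Finset.card_insert_le _ _
    refine le_trans (Nat.mul_le_mul_left 2 (?_ : _ ≤ (Pk k g').card)) (by omega)
    rw [← Set.ncard_coe_finset]
    have ch : ∀ a : Wt Ω, ∃ x, (∃ x, (a.f x).natAbs ≤ k ∧
      (g' = upd a x (a.f x + (2 * k + 1)) ∨ g' = upd a x (a.f x + (4 * k + 2)))) →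
        (a.f x).natAbs ≤ k ∧
      (g' = upd a x (a.f x + (2 * k + 1)) ∨ g' = upd a x (a.f x + (4 * k + 2))) := fun a => by
      by_cases c : ∃ x, (a.f x).natAbs ≤ k ∧
        (g' = upd a x (a.f x + (2 * k + 1)) ∨ g' = upd a x (a.f x + (4 * k + 2)))
      · obtain ⟨x, hx⟩ := c
        exact ⟨x, fun _ => hx⟩
      · exact ⟨x, fun h => absurd h c⟩
    choose φ hφ using ch
    refine Set.ncard_le_ncard_of_injOn φ ?_ ?_ (Finset.finite_toSet _)
    · rintro a ⟨-, ha⟩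
      obtain ⟨b1, e⟩ := hφ a ha
      rw [Finset.mem_coe, mem_Pk]
      rcases e with e | e <;> rw [e, upd_f, if_pos rfl] <;> omega
    · rintro a ⟨-, ha⟩ b ⟨-, hb⟩ e
      obtain ⟨c1, ea⟩ := hφ a ha
      obtain ⟨d1, eb⟩ := hφ b hb
      rw [← e] at eb d1
      have fin : ∀ v w, upd a (φ a) v = upd b (φ a) w → (v = w → a.f (φ a) = b.f (φ a)) → a = b := by
        intro v w e0 h
        have ew : v = w := by
          have := congrArg (fun a' : Wt Ω => a'.f (φ a)) e0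
          simpa [upd_f] using this
        rw [upd_back e0, h ew]
        ext y
        · rw [upd_f]; split_ifs with c <;> simp [c]
        · rfl
      rcases ea with ea | ea <;> rcases eb with eb | eb <;>
        exact fin _ _ (ea.symm.trans eb) (by omega)

lemma caseB (hf : ∀ n, (Bl σ x0 n).Finite) (k j : ℕ) : ∀ N,
    2 ^ j * (DD σ x0 k N j).ncard ≤ (Bl σ x0 (N + j * (4 * k + 2))).ncard := by
  induction j with
  | zero => intro N; simpa using Set.ncard_le_ncard (DD_sub k N 0) (hf N)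
  | succ j ih =>
    intro N
    have h1 := stepB hf k N j
    have h2 := ih (N + (4 * k + 2))
    rw [show N + (j + 1) * (4 * k + 2) = N + (4 * k + 2) + j * (4 * k + 2) by ring, pow_succ,
      mul_assoc]
    exact (Nat.mul_le_mul_left _ h1).trans h2

lemma cnt (Γ : Finset (Perm Ω)) (Y : Finset Ω) (M : ℕ) :
    {g : Wt Ω | g.γ ∈ Γ ∧ g.f.support ⊆ Y ∧ nrm g.f ≤ M}.encard ≤
      (Γ.card * (2 * M + 1) ^ Y.card : ℕ) := by
  have : {g : Wt Ω | g.γ ∈ Γ ∧ g.f.support ⊆ Y ∧ nrm g.f ≤ M} ⊆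
      (fun p : Perm Ω × (Ω →₀ ℤ) => (⟨p.2, p.1⟩ : Wt Ω)) ''
        ↑(Γ ×ˢ Y.finsupp fun _ => Finset.Icc (-(M : ℤ)) M) := by
    rintro g ⟨h1, h2, h3⟩
    refine ⟨(g.γ, g.f), Finset.mem_coe.2 (Finset.mem_product.2 ⟨h1, ?_⟩), rfl⟩
    refine Finset.mem_finsupp_iff.2 ⟨h2, fun x _ => ?_⟩
    have := le_nrm g.f x
    rw [Finset.mem_Icc]
    dsimp only
    omega
  refine (Set.encard_le_encard this).trans ((Set.encard_image_le _ _).trans ?_)
  rw [Set.encard_coe_eq_coe_finsetCard, Finset.card_product, Finset.card_finsupp,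
    Finset.prod_const, Int.card_Icc]
  rw [show ((M : ℤ) + 1 - -M).toNat = 2 * M + 1 by omega]

lemma lowb (hf : ∀ n, (Bl σ x0 n).Finite) (u : List ι) {d : ℕ} (hd : d ≤ (Ob σ x0 u).card) (m : ℕ) :
    (m + 1) ^ d ≤ (Bl σ x0 (u.length + d * m)).ncard := by
  obtain ⟨D, hD, rfl⟩ := Finset.exists_subset_card_eq hd
  have : (m + 1) ^ D.card = (D.finsupp fun _ => Finset.Icc (0 : ℤ) m).card := by
    rw [Finset.card_finsupp, Finset.prod_const, Int.card_Icc]; simp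
  rw [this, ← Set.ncard_coe_finset]
  refine Set.ncard_le_ncard_of_injOn (fun f => ⟨f, pr σ u⟩) ?_ ?_ (hf _)
  · intro f h
    obtain ⟨h1, h2⟩ := Finset.mem_finsupp_iff.1 (Finset.mem_coe.1 h)
    refine ⟨u, rfl, h1.trans hD, Nat.add_le_add_left ?_ _⟩
    refine (Finset.sum_le_card_nsmul _ _ m fun x hx => ?_).trans ?_
    · have := Finset.mem_Icc.1 (h2 x (h1 hx))
      show (f x).natAbs ≤ m
      omega
    · exact Nat.mul_le_mul_right _ (Finset.card_le_card h1)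
  · intro f _ f' _ h
    exact congrArg Wt.f h

lemma superpoly {b : ℕ → ℕ} (hm : Monotone b)
    (h : ∀ d, ∃ K, ∀ m, (m + 1) ^ d ≤ b (K + d * m)) (d C : ℕ) :
    ∃ n0, ∀ n ≥ n0, C * (n + 1) ^ d ≤ b n := by
  obtain ⟨K0, hK⟩ := h (d + 1)
  obtain ⟨K, hK'⟩ : ∃ K, K = K0 + d + 1 := ⟨_, rfl⟩
  have K1 : 0 < K := by omega
  refine ⟨K * (C * K ^ d + 1), fun n hn => ?_⟩
  have h1 : C * K ^ d + 1 ≤ n / K := (Nat.le_div_iff_mul_le K1).2 (by rw [mul_comm]; exact hn)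
  have h2 : n + 1 ≤ K * (n / K + 1) := by
    have := Nat.lt_mul_div_succ n K1
    omega
  have h3 : K * (n / K) ≤ n := Nat.mul_div_le n K
  generalize n / K = j at *
  have h4 : K0 + (d + 1) * j ≤ n := by
    have : K0 ≤ K0 * j := Nat.le_mul_of_pos_right _ (by omega)
    rw [hK'] at h3
    nlinarith
  calc C * (n + 1) ^ d ≤ C * (K * (j + 1)) ^ d := by gcongr
    _ = C * K ^ d * (j + 1) ^ d := by rw [mul_pow, mul_assoc]
    _ ≤ (j + 1) * (j + 1) ^ d := by gcongr; omega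
    _ = (j + 1) ^ (d + 1) := by ring
    _ ≤ b n := (hK j).trans (hm h4)

lemma split (hf : ∀ n, (Bl σ x0 n).Finite) (n k p : ℕ) (p0 : 0 < p) (Γ : Finset (Perm Ω))
    (Y : Finset Ω) (h : ∀ u, (Ob σ x0 u).card < 6 * p → pr σ u ∈ Γ ∧ Ob σ x0 u ⊆ Y) :
    (Bl σ x0 (n + 1)).ncard ≤ (Bl σ x0 n).ncard + Γ.card * (2 * (n + 1) + 1) ^ Y.card +
      (DD σ x0 k (n + 1) p).ncard + {g ∈ Bl σ x0 (n + 1) | g ∉ Bl σ x0 n ∧ 0 < (Pk k g).card ∧
      g.f.support.card ≤ 3 * (Pk k g).card}.ncard := by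
  obtain ⟨f1, c1⟩ := Set.encard_le_coe_iff_finite_ncard_le.1 (cnt Γ Y (n + 1))
  refine le_trans (Set.ncard_le_ncard (t := Bl σ x0 n ∪ _ ∪ DD σ x0 k (n + 1) p ∪ _) ?_
    ((((hf n).union f1).union ((hf _).subset (DD_sub _ _ _))).union
      ((hf (n + 1)).subset (Set.sep_subset _ _)))) ((Set.ncard_union_le _ _).trans
        (Nat.add_le_add_right ((Set.ncard_union_le _ _).trans (Nat.add_le_add_right
          ((Set.ncard_union_le _ _).trans (Nat.add_le_add_left c1 _)) _)) _))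
  rintro g ⟨u, hu⟩
  by_cases c0 : g ∈ Bl σ x0 n
  · exact Or.inl (Or.inl (Or.inl c0))
  by_cases c1 : (Ob σ x0 u).card < 6 * p
  · refine Or.inl (Or.inl (Or.inr ⟨hu.1 ▸ (h u c1).1, hu.2.1.trans (h u c1).2, ?_⟩))
    have := hu.2.2
    omega
  have s1 := Finset.card_le_card hu.2.1
  by_cases c2 : (Ob σ x0 u).card ≤ 3 * (Pk k g).card
  · exact Or.inr ⟨⟨u, hu⟩, c0, by omega, by omega⟩
  · refine Or.inl (Or.inr ⟨u, hu, ?_⟩)
    have := Finset.le_card_sdiff (Pk k g) (Ob σ x0 u)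
    omega

end Pool.Agent.H.MP_e563b5_al
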