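import Pool.Agent.H.MP_e563b5_al.B

set_option autoImplicit false

namespace Pool.Agent.H.MP_e563b5_al

open Equiv Pool.Agent.H.MP_89edc2_al Filter

section an
variable {b : ℕ → ℕ}

lemma subexp (hm : Monotone b) (hs : ∀ n m, b (n + m) ≤ b n * b m)
    (he : ∀ c : ℝ, 1 < c → ∃ k, 0 < k ∧ (b k : ℝ) < c ^ k) {c : ℝ} (hc : 1 < c) :
    ∃ C : ℝ, 0 < C ∧ ∀ n, (b n : ℝ) ≤ C * c ^ n := by
  obtain ⟨k, k0, hk⟩ := he c hc
  refine ⟨b k + 1, by positivity, fun n => ?_⟩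
  induction n using Nat.strong_induction_on with
  | _ n ih =>
    rcases lt_or_ge n k with h | h
    · have h1 : (b n : ℝ) ≤ b k := by exact_mod_cast hm h.le
      have h2 : 1 ≤ c ^ n := one_le_pow₀ hc.le
      have h3 : (0 : ℝ) ≤ b k := by positivity
      nlinarith
    · obtain ⟨j, rfl⟩ := Nat.exists_eq_add_of_le h
      have h1 : (b (k + j) : ℝ) ≤ b k * b j := by exact_mod_cast hs k j
      have h2 := ih j (by omega)
      calc (b (k + j) : ℝ) ≤ b k * b j := h1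
        _ ≤ c ^ k * ((b k + 1) * c ^ j) := by gcongr
        _ = _ := by ring

lemma root_lim (hp : ∀ n, 0 < b n)
    (he : ∀ c : ℝ, 1 < c → ∃ C : ℝ, 0 < C ∧ ∀ n, (b n : ℝ) ≤ C * c ^ n) :
    Tendsto (fun k : ℕ => ((b k : ℝ)) ^ ((1 : ℝ) / (k : ℝ))) atTop (nhds 1) := by
  refine tendsto_order.2 ⟨fun a ha => Eventually.of_forall fun k => ha.trans_le ?_, fun a ha => ?_⟩
  · exact Real.one_le_rpow (by exact_mod_cast hp k) (by positivity)
  · obtain ⟨c, c1, c2⟩ := exists_between ha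
    obtain ⟨C, C0, hC⟩ := he c c1
    have c0 : 0 < c := by linarith
    have := (tendsto_pow_atTop_atTop_of_one_lt ((one_lt_div c0).2 c2)).eventually_gt_atTop C
    filter_upwards [this, eventually_gt_atTop 0] with k h1 h2
    rw [div_pow, lt_div_iff₀ (by positivity)] at h1
    rw [one_div, Real.rpow_inv_lt_iff_of_pos (by positivity) (by linarith) (by exact_mod_cast h2),
      Real.rpow_natCast]
    exact (hC k).trans_lt h1

lemma not_poly (hs : ∀ d C, ∃ n0, ∀ n ≥ n0, C * (n + 1) ^ d ≤ b n) :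
    ¬ ∃ (C : ℝ) (d : ℕ), ∀ k : ℕ, 1 ≤ k → (b k : ℝ) ≤ C * (k : ℝ) ^ d := by
  rintro ⟨C, d, h⟩
  obtain ⟨N, hN⟩ := exists_nat_gt C
  obtain ⟨n0, h0⟩ := hs d N
  have h1 := h (n0 + 1) (by omega)
  have h2 : ((N * (n0 + 1 + 1) ^ d : ℕ) : ℝ) ≤ b (n0 + 1) := by exact_mod_cast h0 _ (by omega)
  push_cast at h1 h2
  have h3 : ((n0 : ℝ) + 1) ^ d ≤ (n0 + 1 + 1) ^ d := by gcongr; linarith
  have h4 : (0 : ℝ) < ((n0 : ℝ) + 1) ^ d := by positivity
  have h5 : (0 : ℝ) ≤ N := by positivity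
  nlinarith

lemma ratio_lim (hp : ∀ n, 0 < b n) (hm : Monotone b) (hs : ∀ n m, b (n + m) ≤ b n * b m)
    (he : ∀ c : ℝ, 1 < c → ∃ C : ℝ, 0 < C ∧ ∀ n, (b n : ℝ) ≤ C * c ^ n)
    (hsp : ∀ d C, ∃ n0, ∀ n ≥ n0, C * (n + 1) ^ d ≤ b n)
    (h : ∀ k p, 0 < p → ∃ A d, ∀ n, ∃ D E, b (n + 1) ≤ b n + A * (2 * (n + 1) + 1) ^ d + D + E ∧
      2 ^ p * D ≤ b (n + 1 + p * (4 * k + 2)) ∧ k * E ≤ 3 * b n) :
    Tendsto (fun k : ℕ => (b (k + 1) : ℝ) / (b k : ℝ)) atTop (nhds 1) := by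
  have key : ∀ M : ℕ, ∃ n0, ∀ n ≥ n0, M * b (n + 1) ≤ M * b n + 5 * b n := by
    intro M
    obtain ⟨p, p0, hp'⟩ : ∃ p, 0 < p ∧ M * b (1 + p * (4 * M + 2)) ≤ 2 ^ p := by
      have e1 : (1 : ℝ) < (3 / 2) ^ ((1 : ℝ) / (4 * M + 2 : ℕ)) :=
        Real.one_lt_rpow (by norm_num) (by positivity)
      have e2 : ((3 / 2 : ℝ) ^ ((1 : ℝ) / (4 * M + 2 : ℕ))) ^ (4 * M + 2) = 3 / 2 := by
        rw [one_div]; exact Real.rpow_inv_natCast_pow (by norm_num) (by omega)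
      generalize (3 / 2 : ℝ) ^ ((1 : ℝ) / (4 * M + 2 : ℕ)) = c at e1 e2
      obtain ⟨C, C0, hC⟩ := he c e1
      have := (tendsto_pow_atTop_atTop_of_one_lt (show (1 : ℝ) < 4 / 3 by norm_num)).eventually_gt_atTop
        (M * C * c)
      obtain ⟨p, h1, h2⟩ := (this.and (eventually_gt_atTop 0)).exists
      refine ⟨p, h2, ?_⟩
      have h3 := hC (1 + p * (4 * M + 2))
      rw [pow_add, pow_one, mul_comm p, pow_mul, e2, mul_comm (4 * M + 2)] at h3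
      have : (M : ℝ) * b (1 + p * (4 * M + 2)) ≤ 2 ^ p := by
        calc (M : ℝ) * b (1 + p * (4 * M + 2)) ≤ M * (C * (c * (3 / 2) ^ p)) := by gcongr
          _ = M * C * c * (3 / 2) ^ p := by ring
          _ ≤ (4 / 3) ^ p * (3 / 2) ^ p := by gcongr
          _ = 2 ^ p := by rw [← mul_pow]; norm_num
      exact_mod_cast this
    obtain ⟨A, d, hA⟩ := h M p p0
    obtain ⟨n0, h0⟩ := hsp d (M * A * 3 ^ d)
    refine ⟨n0, fun n hn => ?_⟩
    obtain ⟨D, E, h1, h2, h3⟩ := hA n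
    have h4 : M * (A * (2 * (n + 1) + 1) ^ d) ≤ b n := by
      refine le_trans ?_ (h0 n hn)
      rw [mul_assoc, mul_assoc, ← mul_pow]
      gcongr
      omega
    have h5 : M * D ≤ b n := by
      refine Nat.le_of_mul_le_mul_left ?_ (show 0 < 2 ^ p by positivity)
      have := hs n (1 + p * (4 * M + 2))
      rw [← add_assoc] at this
      calc 2 ^ p * (M * D) = M * (2 ^ p * D) := by ring
        _ ≤ M * (b n * b (1 + p * (4 * M + 2))) := Nat.mul_le_mul_left _ (h2.trans this)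
        _ = M * b (1 + p * (4 * M + 2)) * b n := by ring
        _ ≤ _ := Nat.mul_le_mul_right _ hp'
    have := Nat.mul_le_mul_left M h1
    simp only [mul_add] at this h4 ⊢
    omega
  refine tendsto_order.2 ⟨fun a ha => Eventually.of_forall fun k => ha.trans_le ?_, fun a ha => ?_⟩
  · rw [le_div_iff₀ (by exact_mod_cast hp k), one_mul]
    exact_mod_cast hm (Nat.le_succ k)
  · obtain ⟨M, hM⟩ := exists_nat_gt (5 / (a - 1))
    rw [div_lt_iff₀ (by linarith)] at hM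
    obtain ⟨n0, h0⟩ := key M
    filter_upwards [eventually_ge_atTop n0] with n hn
    have h1 : (M : ℝ) * b (n + 1) ≤ M * b n + 5 * b n := by exact_mod_cast h0 n hn
    have h2 : (0 : ℝ) < b n := by exact_mod_cast hp n
    have h3 : (0 : ℝ) < M := by nlinarith
    rw [div_lt_iff₀ h2]
    refine lt_of_mul_lt_mul_left ?_ h3.le
    nlinarith

end an

variable {Ω ι : Type} [DecidableEq Ω] [Fintype ι] {σ : ι → Perm Ω} {x0 : Ω}

theorem abstract (hσ : ∀ s, (σ s)⁻¹ = σ s)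
    (h1 : ∀ c : ℝ, 1 < c → ∃ k, 0 < k ∧ ((Bl σ x0 k).ncard : ℝ) < c ^ k)
    (h2 : ∀ p, ∃ (Γ : Finset (Perm Ω)) (Y : Finset Ω),
      ∀ u, (Ob σ x0 u).card < p → pr σ u ∈ Γ ∧ Ob σ x0 u ⊆ Y)
    (h3 : ∀ d, ∃ u, d ≤ (Ob σ x0 u).card) :
    ∃ (G : Type) (inst : Group G) (S : Finset G) (β : ℕ → ℕ),
    Subgroup.closure (S : Set G) = ⊤ ∧
    (∀ k : ℕ, β k = Set.ncard {g : G | ∃ l : List G, l.length ≤ k ∧
        (∀ x ∈ l, x ∈ S ∨ x⁻¹ ∈ S) ∧ l.prod = g}) ∧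
    Filter.Tendsto (fun k : ℕ => ((β k : ℝ)) ^ ((1 : ℝ) / (k : ℝ))) Filter.atTop (nhds 1) ∧
    (¬ ∃ (C : ℝ) (d : ℕ), ∀ k : ℕ, 1 ≤ k → (β k : ℝ) ≤ C * (k : ℝ) ^ d) ∧
    Filter.Tendsto (fun k : ℕ => (β (k + 1) : ℝ) / (β k : ℝ)) Filter.atTop (nhds 1) := by
  classical
  obtain ⟨S, hS⟩ : ∃ S : Finset (Wt Ω), ∀ g, g ∈ S ↔ g = tt x0 1 ∨ ∃ s, g = sg σ s :=
    ⟨insert (tt x0 1) (Finset.univ.image (sg σ)), fun g => by simp [eq_comm]⟩
  have eb := ball_eq hσ hS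
  have hf : ∀ n, (Bl σ x0 n).Finite := fun n => eb n ▸ ball_fin S n
  obtain ⟨S', hS', e⟩ := ball_sub_group S
  obtain ⟨b, hb⟩ : ∃ b : ℕ → ℕ, ∀ n, b n = (Bl σ x0 n).ncard := ⟨_, fun _ => rfl⟩
  have hp : ∀ n, 0 < b n := fun n => by rw [hb, ← eb]; exact ball_pos S n
  have hm : Monotone b := fun n m h => by
    simp only [hb, ← eb]; exact Set.ncard_le_ncard (ball_mono S h) (ball_fin S m)
  have hs : ∀ n m, b (n + m) ≤ b n * b m := fun n m => by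
    simp only [hb, ← eb]; exact ball_sub S n m
  have he := fun c hc => subexp hm hs (by simpa only [hb] using h1) (c := c) hc
  have hsp := superpoly hm fun d => by
    obtain ⟨u, hu⟩ := h3 d
    exact ⟨u.length, fun m => by rw [hb]; exact lowb hf u hu m⟩
  refine ⟨_, inferInstance, S', b, hS', fun k => ?_, root_lim hp he,
    not_poly hsp, ratio_lim hp hm hs he hsp fun k p p0 => ?_⟩
  · rw [hb, ← eb, ← e]; rfl
  · obtain ⟨Γ, Y, h⟩ := h2 (6 * p)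
    refine ⟨Γ.card, Y.card, fun n => ?_⟩
    simp only [hb]
    exact ⟨_, _, split hf n k p p0 Γ Y h, caseB hf k p _, caseC hf n k⟩

end Pool.Agent.H.MP_e563b5_al
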