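import Pool.Agent.H.MP_e563b5_al.C

set_option autoImplicit false

namespace Pool.Agent.H.MP_e563b5_al

open Equiv Pool.Agent.H.MP_89edc2_al Pool.Agent.H.MP_02e21a_al

def ZN (N : ℕ) : Unit → Set Ad := fun _ => {List.replicate N true}

lemma ZN_succ (N : ℕ) : ZN (N + 1) = up (ZN N) := by
  funext i; simp [ZN, up, List.replicate_succ]

lemma ZN_inv (N : ℕ) : Inv (ZN N) := by
  rintro β i _ rfl; exact actK_rep N β

lemma enc_inj' (r m : ℕ) : ∀ (w w' : Wr Unit) (t t' : List (Syl Unit × Bool)),
    enc m w ++ t = enc m w' ++ t' → Same (ZN (r + m)) w w' ∧ t = t' := by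
  induction m with
  | zero =>
    have : ∀ (l l' : List (Syl Unit)) (s s' : Syl Unit) (t t' : List (Syl Unit × Bool)),
        l.map (·, false) ++ (s, true) :: t = l'.map (·, false) ++ (s', true) :: t' →
          l = l' ∧ s = s' ∧ t = t' := by
      intro l
      induction l with
      | nil => intro l' s s' t t' h; cases l' <;> simp_all
      | cons a l ih =>
        intro l' s s' t t' h
        cases l' with
        | nil => simp at h
        | cons a' l' =>
          simp only [List.map_cons, List.cons_append, List.cons.injEq, Prod.mk.injEq, and_true] at h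
          obtain ⟨h1, h2, h3⟩ := ih l' s s' t t' h.2
          simp [h.1, h1, h2, h3]
    intro w w' t t' h
    obtain ⟨h1, h2, h3⟩ := this w.2 w'.2 w.1 w'.1 t t' (by simpa [enc] using h)
    have : w = w' := Prod.ext h2 h1
    exact ⟨this ▸ ⟨fun _ => rfl, fun _ => rfl⟩, h3⟩
  | succ m ih =>
    intro w w' t t' h
    simp only [enc, List.cons_append, List.cons.injEq, Prod.mk.injEq, true_and,
      List.append_assoc] at h
    obtain ⟨s0, h0⟩ := ih _ _ _ _ h.2
    obtain ⟨s1, h1⟩ := ih _ _ _ _ h0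
    have s : ∀ j, Same (ZN (r + m)) (sec w j) (sec w' j) := fun j => by cases j <;> assumption
    refine ⟨⟨fun y => ?_, fun i => ?_⟩, h1⟩
    · cases y with
      | nil => rw [ev_nil, ev_nil]
      | cons x y =>
        have e : x = xor (xor x (par w.2)) (par w.2) := by simp
        rw [e, sec_ev, h.1, sec_ev, (s _).1]
    · rw [← add_assoc, ZN_succ]
      ext y
      cases y with
      | nil => simp [nil_or]
      | cons x y => rw [sec_or (ZN_inv _), sec_or (ZN_inv _), (s x).2]

lemma or_split (N : ℕ) (w : Wr Unit) : Or (ZN (N + 1)) w () =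
    (false :: ·) '' Or (ZN N) (sec w false) () ∪ (true :: ·) '' Or (ZN N) (sec w true) () := by
  rw [ZN_succ]
  ext y
  cases y with
  | nil => simp [nil_or]
  | cons x y =>
    rw [sec_or (ZN_inv N)]
    cases x <;> simp

lemma or_card' (r m : ℕ) : ∀ w : Wr Unit,
    (Or (ZN (r + m)) w ()).encard ≤ ((enc m w).length : ℕ) := by
  induction m with
  | zero =>
    have hZ : ∀ U, (ZU (ZN (r + 0)) U ()).encard ≤ 1 := fun U =>
      (Set.encard_le_encard (fun _ h => h.2)).trans (Set.encard_singleton _).le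
    have : ∀ l : List (Syl Unit), (OL (ZN (r + 0)) l ()).encard ≤ (l.length : ℕ) := fun l => by
      induction l with
      | nil => simp [OL]
      | cons s l ih =>
        refine (Set.encard_image_le _ _).trans ((Set.encard_union_le _ _).trans ?_)
        refine (add_le_add ((Set.encard_image_le _ _).trans ih) (hZ _)).trans ?_
        simp
    intro w
    refine (Set.encard_union_le _ _).trans ?_
    refine (add_le_add ((Set.encard_image_le _ _).trans (this _)) (hZ _)).trans ?_
    simp [enc]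
  | succ m ih =>
    intro w
    rw [← add_assoc, or_split]
    refine (Set.encard_union_le _ _).trans ?_
    refine (add_le_add ((Set.encard_image_le _ _).trans (ih _))
      ((Set.encard_image_le _ _).trans (ih _))).trans ?_
    simp only [enc, List.length_cons, List.length_append]
    norm_cast; omega

def Mk (w : Wr Unit) : Prop :=
  (w.1.1 ≠ (false, false) → () ∈ w.1.2) ∧ ∀ s ∈ w.2, s.1 ≠ (false, false) → () ∈ s.2

lemma mk_w1 : Mk w1 := ⟨fun h => absurd rfl h, by simp [w1]⟩

lemma Mk.pushA {w : Wr Unit} (h : Mk w) : Mk (pushA w) :=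
  ⟨fun h => absurd rfl h, fun s hs => by
    rcases List.mem_cons.1 hs with rfl | hs
    exacts [h.1, h.2 s hs]⟩

lemma Mk.mulS {w : Wr Unit} (h : Mk w) {s : Syl Unit} (hs : s.1 ≠ (false, false) → () ∈ s.2) :
    Mk (mulS s w) := by
  refine ⟨fun c => ?_, h.2⟩
  simp only [MP_89edc2_al.mulS, Finset.mem_union] at c ⊢
  by_cases e : s.1 = (false, false)
  · refine Or.inr (h.1 fun e' => c ?_)
    rw [e, e']; rfl
  · exact Or.inl (hs e)

lemma Mk.app1 {w : Wr Unit} (h : Mk w) {s : Syl Unit} (hs : s.1 ≠ (false, false) → () ∈ s.2)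
    (j : Bool) : Mk (app1 s j w) := by
  unfold MP_89edc2_al.app1
  split_ifs
  · exact h.mulS fun c => hs fun e => c (by rw [e]; rfl)
  · exact h.pushA
  · exact h

lemma Mk.sec {w : Wr Unit} (h : Mk w) (j : Bool) : Mk (sec w j) := by
  have : ∀ l : List (Syl Unit), (∀ s ∈ l, s.1 ≠ (false, false) → () ∈ s.2) → ∀ j, Mk (secL l j) := by
    intro l
    induction l with
    | nil => intro _ _; exact mk_w1
    | cons s l ih =>
      intro hl j
      exact (ih (fun s hs => hl s (List.mem_cons_of_mem _ hs)) _).app1 (hl s List.mem_cons_self) _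
  exact (this _ h.2 j).app1 h.1 j

lemma or_ne {N N' : ℕ} (w : Wr Unit) (h : (Or (ZN N) w ()).Nonempty) :
    (Or (ZN N') w ()).Nonempty := by
  have z : ∀ U, (ZU (ZN N) U ()).Nonempty → (ZU (ZN N') U ()).Nonempty :=
    fun U ⟨_, h, _⟩ => ⟨_, h, rfl⟩
  have : ∀ l : List (Syl Unit), (OL (ZN N) l ()).Nonempty → (OL (ZN N') l ()).Nonempty := by
    intro l
    induction l with
    | nil => simp [OL]
    | cons s l ih =>
      simp only [OL, Set.image_nonempty, Set.union_nonempty]
      exact Or.imp ih (z _)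
  simp only [MP_89edc2_al.Or, Set.image_nonempty, Set.union_nonempty] at h ⊢
  exact h.imp (this _) (z _)

def ab (e : Bool) (y : Ad) : Ad := if e then actA y else y

lemma actK_one' (β : K4) (c : Bool) : actK β [c] = [c] := by
  cases c <;> simp [actK, actA]

lemma base_form {w : Wr Unit} (h : Mk w) {c : Bool} (hc : [!c] ∉ Or (ZN 1) w ()) :
    ∃ e β e', ev w = fun y => ab e (actK β (ab e' y)) := by
  have : ∀ l : List (Syl Unit), (∀ s ∈ l, s.1 ≠ (false, false) → () ∈ s.2) → ∀ c : Bool,
      [!c] ∉ OL (ZN 1) l () → ∃ β e', ∀ y, evL l y = ab (!c) (actK β (ab e' y)) := by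
    intro l
    induction l with
    | nil => intro _ c _; exact ⟨(false, false), !c, fun y => by cases c <;> simp [evL, ab]⟩
    | cons s l ih =>
      intro hl c hc
      rw [OL, mem_imA] at hc
      simp only [actA, Set.mem_union, mem_imK, actK_one', not_or] at hc
      obtain ⟨β, e', he⟩ := ih (fun s hs => hl s (List.mem_cons_of_mem _ hs)) (!c) hc.1
      cases c
      · exact ⟨km s.1 β, e', fun y => by simp [evL, he, ab, actK_km]⟩
      · have : s.1 = (false, false) := by
          by_contra e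
          exact hc.2 ⟨hl s List.mem_cons_self e, rfl⟩
        exact ⟨β, e', fun y => by simp [evL, he, ab, this]⟩
  simp only [MP_89edc2_al.Or, Set.mem_union, mem_imK, actK_one', not_or] at hc
  obtain ⟨β, e', he⟩ := this _ h.2 c hc.1
  cases c
  · have : w.1.1 = (false, false) := by
      by_contra e
      exact hc.2 ⟨h.1 e, rfl⟩
    exact ⟨true, β, e', funext fun y => by simp [ev, he, this]⟩
  · exact ⟨false, km w.1.1 β, e', funext fun y => by simp [ev, he, ab, actK_km]⟩

def comb (p : Bool) (f0 f1 : Ad → Ad) : Ad → Ad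
  | [] => []
  | x :: y => xor x p :: (if xor x p then f1 y else f0 y)

lemma ev_comb (w : Wr Unit) : ev w = comb (par w.2) (ev (sec w false)) (ev (sec w true)) := by
  funext y
  cases y with
  | nil => exact ev_nil w
  | cons x y =>
    have e : x = xor (xor x (par w.2)) (par w.2) := by simp
    rw [comb]
    conv_lhs => rw [e, sec_ev]
    cases xor x (par w.2) <;> rfl

lemma ev_fin (m : ℕ) : ∃ F : Set (Ad → Ad), F.Finite ∧
    ∀ w, Mk w → (Or (ZN m) w ()).encard ≤ m → ev w ∈ F := by
  let F0 : Set (Ad → Ad) := Set.range fun p : Bool × K4 × Bool =>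
    fun y => ab p.1 (actK p.2.1 (ab p.2.2 y))
  have h0 : ∀ w c, Mk w → [!c] ∉ Or (ZN 1) w () → ev w ∈ F0 := fun w c h hc => by
    obtain ⟨e, β, e', he⟩ := base_form h hc
    exact ⟨(e, β, e'), he.symm⟩
  induction m with
  | zero =>
    refine ⟨F0, Set.finite_range _, fun w h hc => h0 w true h fun c => ?_⟩
    have := or_ne (N' := 0) w ⟨_, c⟩
    rw [← Set.encard_pos] at this
    exact absurd hc (not_le.2 this)
  | succ m ih =>
    obtain ⟨F, hF, h⟩ := ih
    refine ⟨F0 ∪ (fun p : Bool × (Ad → Ad) × (Ad → Ad) => comb p.1 p.2.1 p.2.2) ''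
      (Set.univ ×ˢ F ×ˢ F), (Set.finite_range _).union
        ((Set.finite_univ.prod (hF.prod hF)).image _), fun w hw hc => ?_⟩
    by_cases c0 : [false] ∈ Or (ZN 1) w ()
    swap
    · exact Or.inl (h0 w true hw c0)
    by_cases c1 : [true] ∈ Or (ZN 1) w ()
    swap
    · exact Or.inl (h0 w false hw c1)
    rw [ZN_succ, sec_or (ZN_inv 0)] at c0 c1
    have n0 := Set.one_le_encard_iff_nonempty.2 (or_ne (N' := m) _ ⟨_, c0⟩)
    have n1 := Set.one_le_encard_iff_nonempty.2 (or_ne (N' := m) _ ⟨_, c1⟩)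
    rw [or_split, Set.encard_union_eq (by simp [Set.disjoint_left]),
      Function.Injective.encard_image (fun _ _ h => (List.cons.inj h).2),
      Function.Injective.encard_image (fun _ _ h => (List.cons.inj h).2), Nat.cast_succ] at hc
    refine Or.inr ⟨(par w.2, ev (sec w false), ev (sec w true)),
      ⟨trivial, h _ (hw.sec _) ?_, h _ (hw.sec _) ?_⟩, (ev_comb w).symm⟩
    · exact (ENat.add_le_add_iff_right ENat.one_ne_top).1 ((add_le_add le_rfl n1).trans hc)
    · rw [add_comm] at hc
      exact (ENat.add_le_add_iff_right ENat.one_ne_top).1 ((add_le_add le_rfl n0).trans hc)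

abbrev Om := ℕ → Ad

noncomputable instance : DecidableEq Om := Classical.decEq _

def act : Option K4 → Ad → Ad
  | none => actA
  | some β => actK β

lemma act_act (s : Option K4) (y : Ad) : act s (act s y) = y := by cases s <;> simp [act]

def σ (s : Option K4) : Perm Om :=
  Function.Involutive.toPerm (fun x N => act s (x N)) fun x => funext fun N => act_act s (x N)

def x0 : Om := fun N => List.replicate N true

def wd : List (Option K4) → Wr Unit
  | [] => mulS ((false, false), {()}) w1
  | none :: u => mulS ((false, false), {()}) (pushA (wd u))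
  | some β :: u => mulS (β, {()}) (wd u)

lemma mk_wd (u : List (Option K4)) : Mk (wd u) := by
  induction u with
  | nil => exact mk_w1.mulS (by simp)
  | cons s u ih =>
    cases s
    · exact ih.pushA.mulS (by simp)
    · exact ih.mulS (by simp)

lemma nm_wd (u : List (Option K4)) : nm (wd u) ≤ 10 * u.length := by
  induction u with
  | nil => exact (nm_mulS _ _).trans (by simp [nm, w1, nmL, wt])
  | cons s u ih =>
    rcases s with _ | β
    · refine (nm_mulS _ _).trans ?_
      rw [nm_pushA]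
      simp only [wt, List.length_cons]
      simp; omega
    · refine (nm_mulS _ _).trans ?_
      have : wt β ≤ 6 := by unfold wt; split_ifs <;> omega
      simp only [List.length_cons]; omega

lemma pr_cons (s : Option K4) (u : List (Option K4)) (x : Om) (N : ℕ) :
    pr σ (s :: u) x N = act s (pr σ u x N) := rfl

lemma ev_wd (u : List (Option K4)) (x : Om) (N : ℕ) : pr σ u x N = ev (wd u) (x N) := by
  induction u with
  | nil => simp [pr, wd, ev_mulS, ev_w1]
  | cons s u ih =>
    rw [pr_cons, ih]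
    cases s <;> simp [wd, ev_mulS, ev_pushA, act]

lemma or_wd (N : ℕ) (u : List (Option K4)) :
    Or (ZN N) (wd u) () = (fun x : Om => x N) '' ↑(Ob σ x0 u) := by
  have z : ZU (ZN N) {()} () = {x0 N} := by ext; simp [ZU, ZN, x0]
  induction u with
  | nil => simp [wd, or_mulS (ZN_inv N), or_w1, z, Ob]
  | cons s u ih =>
    cases s
    · simp only [wd, or_mulS (ZN_inv N), or_pushA, z, Ob, ih, actK_one, Set.image_id',
        Finset.coe_insert, Finset.coe_image, Set.image_insert_eq, Set.image_image,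
        Set.union_singleton]
      rfl
    · simp only [wd, or_mulS (ZN_inv N), z, Ob, ih,
        Finset.coe_insert, Finset.coe_image, Set.image_insert_eq, Set.image_image,
        Set.union_singleton]
      rfl

lemma mem_Ob {u : List (Option K4)} : ∀ {x : Om}, x ∈ Ob σ x0 u →
    ∃ v, v <+: u ∧ x = pr σ v x0 := by
  induction u with
  | nil => intro x h; exact ⟨[], List.prefix_rfl, by simpa [Ob, pr] using h⟩
  | cons s u ih =>
    intro x h
    rcases Finset.mem_insert.1 h with rfl | h
    · exact ⟨[], List.nil_prefix, rfl⟩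
    · obtain ⟨y, hy, rfl⟩ := Finset.mem_image.1 h
      obtain ⟨v, hv, rfl⟩ := ih hy
      exact ⟨s :: v, (List.prefix_cons_inj s).2 hv, rfl⟩

lemma Ob_app (v w : List (Option K4)) : Ob σ x0 v ⊆ Ob σ x0 (v ++ w) ∧
    ∀ x ∈ Ob σ x0 w, pr σ v x ∈ Ob σ x0 (v ++ w) := by
  induction v with
  | nil => exact ⟨Finset.singleton_subset_iff.2 (x0_mem _ _ _), fun x h => h⟩
  | cons s v ih =>
    exact ⟨Finset.insert_subset_insert _ (Finset.image_subset_image ih.1), fun x h =>
      Finset.mem_insert_of_mem (Finset.mem_image_of_mem _ (ih.2 x h))⟩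

lemma pr_ext {u u' : List (Option K4)} (h : ev (wd u) = ev (wd u')) : pr σ u = pr σ u' := by
  ext x N : 2
  rw [ev_wd, ev_wd, h]

theorem hyp2 (p : ℕ) : ∃ (Γ : Finset (Perm Om)) (Y : Finset Om),
    ∀ u, (Ob σ x0 u).card < p → pr σ u ∈ Γ ∧ Ob σ x0 u ⊆ Y := by
  obtain ⟨F, hF, h⟩ := ev_fin p
  have fin : {γ | ∃ u, γ = pr σ u ∧ ev (wd u) ∈ F}.Finite := by
    refine Set.Finite.of_finite_image (f := fun (γ : Perm Om) (y : Ad) => γ (fun _ => y) 0)
      (hF.subset ?_) ?_
    · rintro _ ⟨_, ⟨u, rfl, hu⟩, rfl⟩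
      simpa only [ev_wd] using hu
    · rintro _ ⟨u, rfl, -⟩ _ ⟨u', rfl, -⟩ e
      exact pr_ext (by simpa only [ev_wd] using e)
  have k : ∀ u, (Ob σ x0 u).card < p → pr σ u ∈ fin.toFinset := fun u hu => by
    refine fin.mem_toFinset.2 ⟨u, rfl, h _ (mk_wd u) ?_⟩
    rw [or_wd]
    refine (Set.encard_image_le _ _).trans ?_
    rw [Set.encard_coe_eq_coe_finsetCard]
    exact_mod_cast hu.le
  refine ⟨fin.toFinset, fin.toFinset.image (· x0), fun u hu => ⟨k u hu, fun x hx => ?_⟩⟩
  obtain ⟨v, ⟨w, rfl⟩, rfl⟩ := mem_Ob hx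
  exact Finset.mem_image_of_mem _ (k v ((Finset.card_le_card (Ob_app v w).1).trans_lt hu))

lemma pr_rev (v : List (Option K4)) : pr σ (v ++ v.reverse) = 1 := by
  induction v with
  | nil => rfl
  | cons s v ih =>
    simp only [pr, List.reverse_cons, List.map_append, List.map_cons, List.prod_append,
      List.prod_cons, List.map_nil, List.prod_nil, mul_one] at ih ⊢
    rw [mul_assoc, ← mul_assoc (List.prod _), ih, one_mul]
    exact mul_eq_one_iff_eq_inv.2 rfl

theorem hyp3 (d : ℕ) : ∃ u, d ≤ (Ob σ x0 u).card := by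
  induction d with
  | zero => exact ⟨[], Nat.zero_le _⟩
  | succ d ih =>
    obtain ⟨u, hu⟩ := ih
    obtain ⟨N, hN⟩ : ∃ N, N = (Ob σ x0 u).card := ⟨_, rfl⟩
    have tr := lev_trans N (fun y => ∃ v, pr σ v x0 N = y)
      (fun y _ ⟨v, h⟩ => ⟨none :: v, by rw [pr_cons, h]; rfl⟩)
      (fun β y _ ⟨v, h⟩ => ⟨some β :: v, by rw [pr_cons, h]; rfl⟩) (x0 N) (by simp [x0]) ⟨[], rfl⟩
    obtain ⟨v, hv⟩ : ∃ v, pr σ v x0 ∉ Ob σ x0 u := by
      by_contra c
      push Not at c
      choose f hf using fun y : List.Vector Bool N => tr y.1 y.2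
      have := Finset.card_le_card_of_injOn (s := Finset.univ) (t := Ob σ x0 u)
        (fun y => pr σ (f y) x0) (fun y _ => c _) fun y _ y' _ e =>
          Subtype.ext (by rw [← hf, ← hf]; exact congrFun e N)
      rw [Finset.card_univ, card_vector, Fintype.card_bool, ← hN] at this
      exact absurd this (not_le.2 Nat.lt_two_pow_self)
    refine ⟨v ++ (v.reverse ++ u), ?_⟩
    refine le_trans ?_ (Finset.card_le_card (s := insert (pr σ v x0) (Ob σ x0 u))
      (Finset.insert_subset ((Ob_app _ _).2 _ (x0_mem _ _ _)) fun x hx => ?_))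
    · rw [Finset.card_insert_of_notMem hv]; omega
    · have := (Ob_app (v ++ v.reverse) u).2 x hx
      rwa [pr_rev, List.append_assoc] at this

lemma act_take (s : Option K4) (y : Ad) (N : ℕ) : (act s y).take N = act s (y.take N) := by
  have hA : ∀ (y : Ad) N, (actA y).take N = actA (y.take N) := fun y N => by
    cases y <;> cases N <;> simp [actA]
  rcases s with _ | β
  · exact hA y N
  · simp only [act]
    induction y generalizing β N with
    | nil => simp [actK]
    | cons x y ih =>
      cases N with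
      | zero => simp [actK]
      | succ N =>
        cases x
        · simp only [actK, List.take_succ_cons]
          split_ifs <;> simp [hA]
        · simp [actK, ih]

lemma coh (v : List (Option K4)) {N M : ℕ} (h : N ≤ M) : (pr σ v x0 M).take N = pr σ v x0 N := by
  induction v with
  | nil => simp [pr, x0, h]
  | cons s v ih => rw [pr_cons, pr_cons, act_take, ih]

theorem hyp1 (c : ℝ) (hc : 1 < c) : ∃ k, 0 < k ∧ ((Bl σ x0 k).ncard : ℝ) < c ^ k := by
  obtain ⟨m, L, hL, L1, hn⟩ := numer hc 1 (Fintype.card (Syl Unit × Bool))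
  refine ⟨3 ^ m, by positivity, lt_of_le_of_lt (Nat.cast_le.2 ?_) hn⟩
  obtain ⟨r, hr⟩ : ∃ r, ∀ v v' : List (Option K4), v.length ≤ 3 ^ m → v'.length ≤ 3 ^ m →
      pr σ v x0 (r + m) = pr σ v' x0 (r + m) → pr σ v x0 = pr σ v' x0 := by
    have fin := (List.finite_length_le (Option K4) (3 ^ m)).prod
      (List.finite_length_le (Option K4) (3 ^ m))
    have : ∀ᶠ r in Filter.atTop, ∀ p ∈ {l : List (Option K4) | l.length ≤ 3 ^ m} ×ˢ
        {l : List (Option K4) | l.length ≤ 3 ^ m}, pr σ p.1 x0 (r + m) = pr σ p.2 x0 (r + m) →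
        pr σ p.1 x0 = pr σ p.2 x0 := (Filter.eventually_all_finite fin).2 fun p _ => by
      by_cases e : pr σ p.1 x0 = pr σ p.2 x0
      · exact Filter.Eventually.of_forall fun _ _ => e
      · obtain ⟨N, hN⟩ := Function.ne_iff.1 e
        filter_upwards [Filter.eventually_ge_atTop N] with r hr h
        exact absurd (by rw [← coh p.1 (M := r + m) (by omega), h, coh _ (by omega)]) hN
    obtain ⟨r, h⟩ := this.exists
    exact ⟨r, fun v v' h1 h2 => h (v, v') ⟨h1, h2⟩⟩
  have inj : ∀ u u' : List (Option K4), u.length ≤ 3 ^ m → u'.length ≤ 3 ^ m →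
      ∀ x ∈ Ob σ x0 u, ∀ x' ∈ Ob σ x0 u', x (r + m) = x' (r + m) → x = x' := by
    intro u u' hu hu' x hx x' hx' e
    obtain ⟨v, hv, rfl⟩ := mem_Ob hx
    obtain ⟨v', hv', rfl⟩ := mem_Ob hx'
    exact hr v v' (hv.length_le.trans hu) (hv'.length_le.trans hu') e
  let F : List.Vector (Syl Unit × Bool) L → Set (Wt Om) := fun c =>
    {g | ∃ u t, enc m (wd u) ++ t = c.1 ∧ Wit σ x0 u g (3 ^ m)}
  have sub : Bl σ x0 (3 ^ m) ⊆ ⋃ c, F c := by
    rintro g ⟨u, hu⟩
    have hle : (enc m (wd u)).length ≤ L := hL _ ((enc_len m _).trans (by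
      have := nm_wd u
      have := hu.2.2
      have : 6 ^ m * nm (wd u) ≤ 6 ^ m * (10 * 3 ^ m) := Nat.mul_le_mul_left _ (by omega)
      omega))
    exact Set.mem_iUnion.2 ⟨⟨enc m (wd u) ++ List.replicate (L - (enc m (wd u)).length)
      (((false, false), ∅), false), by simp; omega⟩, u, _, rfl, hu⟩
  refine (Set.encard_le_coe_iff_finite_ncard_le.1 ?_).2
  refine (Set.encard_le_encard sub).trans ((Set.encard_iUnion_le_of_fintype _).trans ?_)
  refine (Finset.sum_le_card_nsmul _ _
    (((1 * (4 * L)) ^ (1 * (4 * L)) : ℕ) : ℕ∞) fun c _ => ?_).trans ?_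
  · rcases (F c).eq_empty_or_nonempty with h0 | ⟨g0, u0, t0, e0, w0⟩
    · rw [h0]; simp
    have l0 : u0.length ≤ 3 ^ m := le_trans (Nat.le_add_right _ _) w0.2.2
    have : F c ⊆ {g : Wt Om | g.γ ∈ ({pr σ u0} : Finset _) ∧ g.f.support ⊆ Ob σ x0 u0 ∧
        nrm g.f ≤ 3 ^ m} := by
      rintro g ⟨u, t, e1, w⟩
      obtain ⟨⟨s1, s2⟩, -⟩ := enc_inj' r m _ _ t t0 (e1.trans e0.symm)
      refine ⟨by rw [w.1, pr_ext (funext s1)]; simp, w.2.1.trans fun x hx => ?_,
        le_trans (Nat.le_add_left _ _) w.2.2⟩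
      have := s2 ()
      rw [or_wd, or_wd] at this
      obtain ⟨x', hx', e⟩ := this.subset ⟨x, hx, rfl⟩
      rwa [← inj u0 u l0 (le_trans (Nat.le_add_right _ _) w.2.2) x' hx' x hx e]
    refine (Set.encard_le_encard this).trans ((cnt _ _ _).trans (Nat.cast_le.2 ?_))
    have c1 : (Ob σ x0 u0).card ≤ L := by
      have := or_card' r m (wd u0)
      rw [or_wd, Set.InjOn.encard_image (fun x hx x' hx' => inj u0 u0 l0 l0 x hx x' hx'),
        Set.encard_coe_eq_coe_finsetCard, Nat.cast_le] at this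
      rw [← c.2, ← e0, List.length_append]
      omega
    have c2 : 2 ^ m ≤ L := hL _ (by
      have : 7 ^ m * 2 ^ m ≤ 15 ^ m := by rw [← mul_pow]; exact Nat.pow_le_pow_left (by omega) m
      omega)
    have c3 : 3 ^ m ≤ L * L := le_trans (by
      rw [← mul_pow]; exact Nat.pow_le_pow_left (by omega) m) (Nat.mul_le_mul c2 c2)
    rw [Finset.card_singleton, one_mul, one_mul]
    calc (2 * 3 ^ m + 1) ^ (Ob σ x0 u0).card ≤ (2 * 3 ^ m + 1) ^ (2 * L) :=
          Nat.pow_le_pow_right (by omega) (by omega)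
      _ ≤ ((4 * L) ^ 2) ^ (2 * L) := Nat.pow_le_pow_left (by nlinarith) _
      _ = _ := by rw [← pow_mul]; congr 1; ring
  · rw [Finset.card_univ, card_vector]
    simp

end Pool.Agent.H.MP_e563b5_al
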